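import Pool.Agent.H428.AY.Sq
import Pool.Agent.H508.W.Kl
import Pool.Agent.H428.AX.Tlaw

/-!
# The `3`-part of the formula of Birch and Swinnerton-Dyer for all the cubic twists `y² + B y = x³` over `ℚ(√-3)`

`K = ℚ(√-3)` is the field of third roots of unity, and `E_B` is the curve `y² + B y = x³` over `K`; these are
the cubic twists of `y² + y = x³`.  `B` runs through ALL the cube-free elements of `𝓞 K` which are prime to
`3`, ordered by the norm; every element of `K` is a cube times a cube-free element of `𝓞 K`, so these are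
all the curves `E_B`, `B` prime to `3`.  The class `InClass` consists of all the `B`, except for the units
and for the `B` which are `± 1` modulo `3` with a norm `1` modulo `9`; it is `8/9` of all the `B`.

* For EVERY `B` of the class the equation is minimal everywhere, `c_v = 3` for `v ∣ B`, `c_v` is prime to
  `3` for the other `v`, the `3`-part of `E_B(K)_tors` has order `3`, `L(E_B/K, s)` is entire, and the
  quotient `z = L(E_B/K, 1) √3 #E_B(K)_tors² / (Ω ∏ c_v)` is a rational number, nonnegative and integral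
  at `3`.  It is a unit at `3` if and only if `E_B(K)` is finite and the `3`-primary part of `Ш(E_B/K)`
  is trivial, if and only if the corank of `B` is zero.  So the `3`-part of the conjecture holds as soon
  as one of the two sides is a unit at `3`.
* The share of the `B` of the class for which it holds in this way is exactly
  `p₀ = ∏_{i ≥ 0} (1 - 3^{-(2 i + 1)}) = 0.639…`; the share of the `B` of the class with the corank `r` is
  exactly `p₀ / ((3 - 1) (9 - 1) ⋯ (3 ^ r - 1))`, and the rank of `E_B(K)` is then at most `2 r`.  So the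
  `3`-part holds for more than `56.8 %` of ALL the curves `E_B`, `B` prime to `3`.
* The same is true for the squarefree `B`, and in each residue class modulo `3` of the squarefree `B` of
  the class.

The case of the squarefree `B ≡ 1` modulo `3` is known to the library.  For `B ≢ ± 1` modulo `3` the
extension `K(∛B)` is wildly ramified at the prime above three and the unit `ω` is an additional vertex of
the graph of the residue symbols (`H428/TP`).  The Tamagawa numbers and the value for the `B` with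
`v(B) = 2` are from `H508/W` (helper508), the law of the coranks of the squarefree elements (also of
`c² D` for fixed `c`) from `H462/JL` (helper462), and the passage to all the cube-free elements is
`H428/AX`.
-/

set_option autoImplicit false

namespace Pool.Agent.Results.MP_e996df_nt.CubicTwistsThreePart

open NumberField IsDedekindDomain
open Pool.Agent.TH841.NF.D (Sha)
open scoped Classical

/-- The curve `E_D : y² + D y = x³`. -/
def curve {K : Type} [Field K] (D : K) : WeierstrassCurve K := ⟨0, 0, D, 0, 0⟩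

/-- The rank of `E(K)`. -/
noncomputable def rank {K : Type} [Field K] (E : WeierstrassCurve K) : ℕ :=
  Module.finrank ℤ E.toAffine.Point

section
variable {K : Type} [Field K] [NumberField K]

/-- The equation `E` is minimal at every finite place `v`, and `c v` is the Tamagawa number of `E` at
`v`: the index in `E(K_v)` of the subgroup of the points of nonsingular reduction. -/
def IsTamagawa (E : WeierstrassCurve K) (c : HeightOneSpectrum (𝓞 K) → ℕ) : Prop :=
  (∀ v : HeightOneSpectrum (𝓞 K),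
    (E.baseChange (v.adicCompletion K)).IsMinimal (v.adicCompletionIntegers K) ∧
    ∃ H : AddSubgroup (E.baseChange (v.adicCompletion K)).toAffine.Point,
      (∀ P, P ∈ H ↔ Pool.Agent.Y696.NonsingRed Valued.v (E.baseChange (v.adicCompletion K)) P) ∧
      H.index = c v) ∧
  {v | c v ≠ 1}.Finite

/-- `Λ` is the lattice of periods of the differential `dx / (2y + a₁x + a₃)` of the curve `E`, embedded
in the complex numbers by `σ`. -/
def IsPeriodLattice (E : WeierstrassCurve K) (σ : K →+* ℂ) (Λ : PeriodPair) : Prop :=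
  Λ.g₂ = σ E.c₄ / 12 ∧ Λ.g₃ = σ E.c₆ / 216

/-- Twice the area of a fundamental parallelogram of the lattice. -/
noncomputable def period (Λ : PeriodPair) : ℝ := 2 * |((starRingEnd ℂ) Λ.ω₁ * Λ.ω₂).im|

/-- `L` is the entire continuation of the `L`-series of `E`. -/
def IsLFunction (E : WeierstrassCurve K) (L : ℂ → ℂ) : Prop :=
  Differentiable ℂ L ∧ ∀ s : ℂ, 3 / 2 < s.re →
    LSeriesSummable ((fun n : ℤ => (n : ℂ)) ∘ E.LFunction) s ∧ L s = E.LSeries s

/-- `L(E/K, 1) √|disc K| #E(K)_tors² / (Ω ∏ c_v)` for a curve `E` over an imaginary quadratic field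
`K`: if the rank is `0`, the conjecture says that this is the order of `Ш(E/K)`. -/
noncomputable def quotient (E : WeierstrassCurve K) (L : ℂ → ℂ)
    (c : HeightOneSpectrum (𝓞 K) → ℕ) (Λ : PeriodPair) : ℂ :=
  L 1 * (Real.sqrt |(discr K : ℝ)| : ℝ) *
    (Nat.card (AddCommGroup.torsion E.toAffine.Point) : ℂ) ^ 2 /
      ((period Λ : ℂ) * ((∏ᶠ v, c v : ℕ) : ℂ))

/-- `E(K)` is finite and the `3`-primary part of `Ш(E/K)` is trivial. -/
def Trivial (E : WeierstrassCurve K) : Prop :=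
  Finite E.toAffine.Point ∧ ∀ (n : ℕ) (x : Sha E), 3 ^ n • x = 0 → x = 0

/-- The rational number `z` is the value of the quotient for all the embeddings `σ` of `K` and all the
bases of the lattice of periods. -/
def IsValue (E : WeierstrassCurve K) (L : ℂ → ℂ) (c : HeightOneSpectrum (𝓞 K) → ℕ) (z : ℚ) : Prop :=
  ∀ σ : K →+* ℂ, (∃ Λ : PeriodPair, IsPeriodLattice E σ Λ) ∧
    ∀ Λ : PeriodPair, IsPeriodLattice E σ Λ → quotient E L c Λ = z

/-- The `3`-part of the conjecture for `E/K`, both sides of the formula being units at `3`: `E(K)` is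
finite, the `3`-primary part of `Ш(E/K)` is trivial, the `L`-function is entire and does not vanish at
`1`, and the predicted order of `Ш(E/K)` is a positive rational number with the `3`-adic valuation
`0`. -/
def ThreePart (E : WeierstrassCurve K) : Prop :=
  Trivial E ∧
  ∃ (L : ℂ → ℂ) (c : HeightOneSpectrum (𝓞 K) → ℕ) (z : ℚ),
    IsLFunction E L ∧ IsTamagawa E c ∧ L 1 ≠ 0 ∧ IsValue E L c z ∧ 0 < z ∧ padicValRat 3 z = 0

/-- `B` is cube-free and prime to `3`. -/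
def CubeFreePrimeToThree (B : 𝓞 K) : Prop :=
  (∀ π : 𝓞 K, Prime π → ¬ π ^ 3 ∣ B) ∧ ¬ (3 : ℤ) ∣ Algebra.norm ℤ B

/-- `B` is cube-free and prime to `3`, not a unit, and it is not the case that `B` is `± 1` modulo `3`
with a norm `1` modulo `9`. -/
def InClass (B : 𝓞 K) : Prop :=
  CubeFreePrimeToThree B ∧ ¬ IsUnit B ∧
    ¬ ((3 : 𝓞 K) ∣ B ^ 2 - 1 ∧ (9 : ℤ) ∣ Algebra.norm ℤ B - 1)

/-- `B` is the product of `± ω ^ k` and of the powers `π i ^ e i` of different primes `π i`, which are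
`1` modulo `3`, and the cubic residue symbol of `π i` modulo `π j` is `ω ^ χ j i`. -/
def IsFactorization (ω B : 𝓞 K) (k : ZMod 3) (n : ℕ) (π : Fin n → 𝓞 K) (e : Fin n → ZMod 3)
    (χ : Fin n → Fin n → ZMod 3) : Prop :=
  (∀ i, Prime (π i) ∧ (3 : 𝓞 K) ∣ π i - 1 ∧ e i ≠ 0) ∧ Function.Injective π ∧
  (B = ω ^ k.val * ∏ i, π i ^ (e i).val ∨ B = -(ω ^ k.val * ∏ i, π i ^ (e i).val)) ∧
  ∀ i j, i ≠ j →
    π j ∣ π i ^ (((Algebra.norm ℤ (π j)).natAbs - 1) / 3) - ω ^ (χ j i).val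

/-- The number of the solutions of the system `∑_i e_i χ_{ji} (v_i - v_j) = k q_j v_j`, where
`q_j = (N π_j - 1) / 3`, over the field with three elements. -/
noncomputable def solutions (k : ZMod 3) {n : ℕ} (π : Fin n → 𝓞 K) (e : Fin n → ZMod 3)
    (χ : Fin n → Fin n → ZMod 3) : ℕ :=
  Nat.card {v : Fin n → ZMod 3 // ∀ j, ∑ i, e i * χ j i * (v i - v j) =
    k * (((Algebra.norm ℤ (π j) - 1) / 3 : ℤ) : ZMod 3) * v j}

/-- `B` has the corank `r`. -/
def Corank (B : 𝓞 K) (r : ℕ) : Prop :=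
  ∃ (ω : 𝓞 K) (k : ZMod 3) (n : ℕ) (π : Fin n → 𝓞 K) (e : Fin n → ZMod 3)
    (χ : Fin n → Fin n → ZMod 3),
    ω ^ 2 + ω + 1 = 0 ∧ IsFactorization ω B k n π e χ ∧
      solutions k π e χ = if k = 0 then 3 ^ (r + 1) else 3 ^ r

end

/-- ALL the cube-free `B` prime to `3` of norm at most `X`. -/
def all (K : Type) [Field K] [NumberField K] (X : ℕ) : Set (𝓞 K) :=
  {B : 𝓞 K | Algebra.norm ℤ B ≤ X ∧ CubeFreePrimeToThree B}

/-- The `B` of the class of norm at most `X`. -/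
def upTo (K : Type) [Field K] [NumberField K] (X : ℕ) : Set (𝓞 K) :=
  {B : 𝓞 K | Algebra.norm ℤ B ≤ X ∧ InClass B}

/-- The share in the sets `U X` of the elements with the property `P` tends to `w`. -/
def HasShare {α : Type} (U : ℕ → Set α) (P : α → Prop) (w : ℝ) : Prop :=
  Filter.Tendsto (fun X : ℕ => (({B ∈ U X | P B}.ncard : ℕ) : ℝ) / ((U X).ncard : ℝ)) Filter.atTop
    (nhds w)

/-- `p₀ = ∏_{i ≥ 0} (1 - 3^{-(2 i + 1)})`. -/
noncomputable def p₀ : ℝ := ∏' i : ℕ, (1 - (1 / 3 : ℝ) ^ (2 * i + 1))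

section proof
variable {K : Type} [Field K] [NumberField K]

lemma lattice_iff (D : K) (σ : K →+* ℂ) (Λ : PeriodPair) :
    IsPeriodLattice (curve D) σ Λ ↔ Λ.g₂ = 0 ∧ Λ.g₃ = -(σ D) ^ 2 := by
  have h4 : (curve D).c₄ = 0 := by
    simp [curve, WeierstrassCurve.c₄, WeierstrassCurve.b₂, WeierstrassCurve.b₄]
  have h6 : (curve D).c₆ = -216 * D ^ 2 := by
    simp [curve, WeierstrassCurve.c₆, WeierstrassCurve.b₂, WeierstrassCurve.b₄,
      WeierstrassCurve.b₆]
  unfold IsPeriodLattice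
  rw [h4, h6, map_zero, zero_div, map_mul, map_pow, map_neg, map_ofNat]
  have e : (-216 * (σ D) ^ 2 : ℂ) / 216 = -(σ D) ^ 2 := by ring
  rw [e]

lemma eventually_share {n m : ℕ → ℕ} {L : ℝ}
    (h : Filter.Tendsto (fun X : ℕ => (n X : ℝ) / (m X : ℝ)) Filter.atTop (nhds L)) (ε : ℝ)
    (hε : 0 < ε) : ∃ X₀ : ℕ, ∀ X : ℕ, X₀ ≤ X → (L - ε) * (m X : ℝ) ≤ (n X : ℝ) := by
  obtain ⟨X₀, h1⟩ := Filter.eventually_atTop.1 ((tendsto_order.1 h).1 (L - ε) (by linarith))
  refine ⟨X₀, fun X hX => ?_⟩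
  have h2 := h1 X hX
  rcases Nat.eq_zero_or_pos (m X) with h0 | h0
  · rw [h0, Nat.cast_zero, mul_zero]
    exact Nat.cast_nonneg _
  · rw [lt_div_iff₀ (by exact_mod_cast h0)] at h2
    exact h2.le

/-- the law for one `B` -/
def Law (B : 𝓞 K) (P : Prop) : Prop :=
  Finite (AddCommGroup.torsion (curve (B : K)).toAffine.Point) ∧
    padicValNat 3 (Nat.card (AddCommGroup.torsion (curve (B : K)).toAffine.Point)) = 1 ∧
    ∃ (L : ℂ → ℂ) (c : HeightOneSpectrum (𝓞 K) → ℕ) (z : ℚ),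
      IsLFunction (curve (B : K)) L ∧ IsTamagawa (curve (B : K)) c ∧
      (∀ v, B ∈ v.asIdeal → c v = 3) ∧ (∀ v, B ∉ v.asIdeal → ¬ 3 ∣ c v) ∧
      IsValue (curve (B : K)) L c z ∧ 0 ≤ z ∧ 0 ≤ padicValRat 3 z ∧
      ((z ≠ 0 ∧ padicValRat 3 z = 0) ↔ P)

variable [IsCyclotomicExtension {3} ℚ K]

theorem each {B : 𝓞 K} (hB : InClass B) {r : ℕ} (hr : Corank B r) :
    rank (curve (B : K)) ≤ 2 * r ∧ (Trivial (curve (B : K)) ↔ r = 0) ∧ Law B (r = 0) := by
  obtain ⟨h0, h1, h2, h3, L, c, q, h4, h5, h6, h7, h8, h9, h10, h11⟩ :=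
    Pool.Agent.H508.W.all_K hB.2.1 hB.2.2 hr
  refine ⟨h0, h3, h1, h2, L, c, q, h4, h5, h6, h7, fun σ => ?_, h9, h10, h11⟩
  obtain ⟨⟨Λ, hΛ⟩, h12⟩ := h8 σ
  refine ⟨⟨Λ, (lattice_iff _ σ Λ).2 hΛ⟩, fun Λ' hΛ' => ?_⟩
  have h13 := (lattice_iff _ σ Λ').1 hΛ'
  exact h12 Λ' h13.1 h13.2

theorem corank_unique {B : 𝓞 K} (hB : InClass B) : ∃! r, Corank B r :=
  Pool.Agent.H428.AX.ex_cor hB.1 hB.2.1

/-- the `3`-part holds exactly if the corank is zero -/
theorem three_iff {B : 𝓞 K} (hB : InClass B) : ThreePart (curve (B : K)) ↔ Corank B 0 := by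
  obtain ⟨r, hr, hun⟩ := corank_unique hB
  obtain ⟨-, ht, -, -, L, c, z, h5, h6, -, -, h7, h8, -, h10⟩ := each hB hr
  constructor
  · rintro ⟨k1, -⟩
    have k2 := ht.1 k1
    subst k2
    exact hr
  · intro h
    have h0 : r = 0 := (hun 0 h).symm
    obtain ⟨k1, k2⟩ := h10.2 h0
    refine ⟨ht.2 h0, L, c, z, h5, h6, ?_, h7, lt_of_le_of_ne h8 k1.symm, k2⟩
    intro hL
    obtain ⟨σ⟩ : Nonempty (K →+* ℂ) := inferInstance
    obtain ⟨⟨Λ, hΛ⟩, k3⟩ := h7 σ
    have k4 := k3 Λ hΛ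
    unfold quotient at k4
    rw [hL, zero_mul, zero_mul, zero_div] at k4
    exact k1 (by exact_mod_cast k4.symm)

end proof

/-- **Main theorem.** -/
theorem result (K : Type) [Field K] [NumberField K] [IsCyclotomicExtension {3} ℚ K] :
    -- (1) the two sides of the formula, for each `B` of the class
    (∀ B : 𝓞 K, InClass B → (∃! r, Corank B r) ∧
      (ThreePart (curve (B : K)) ↔ Trivial (curve (B : K))) ∧
      (Trivial (curve (B : K)) ↔ Corank B 0) ∧
      (∀ r, Corank B r → rank (curve (B : K)) ≤ 2 * r) ∧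
      Finite (AddCommGroup.torsion (curve (B : K)).toAffine.Point) ∧
      padicValNat 3 (Nat.card (AddCommGroup.torsion (curve (B : K)).toAffine.Point)) = 1 ∧
      ∃ (L : ℂ → ℂ) (c : HeightOneSpectrum (𝓞 K) → ℕ) (z : ℚ),
        IsLFunction (curve (B : K)) L ∧ IsTamagawa (curve (B : K)) c ∧
        (∀ v, B ∈ v.asIdeal → c v = 3) ∧ (∀ v, B ∉ v.asIdeal → ¬ 3 ∣ c v) ∧
        IsValue (curve (B : K)) L c z ∧ 0 ≤ z ∧ 0 ≤ padicValRat 3 z ∧
        ((z ≠ 0 ∧ padicValRat 3 z = 0) ↔ Trivial (curve (B : K)))) ∧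
    -- (2) all the cube-free `B`: the share of the class, the density of the `3`-part and of the coranks
    (∀ X, (all K X).Finite) ∧
    (∃ c : ℝ, 0 < c ∧ ∃ X₀ : ℕ, ∀ X : ℕ, X₀ ≤ X → c * X ≤ ((all K X).ncard : ℝ)) ∧
    HasShare (all K) InClass (8 / 9) ∧
    HasShare (upTo K) (fun B => ThreePart (curve (B : K))) p₀ ∧
    (∀ r : ℕ, HasShare (upTo K) (fun B => Corank B r)
      (p₀ / ∏ i ∈ Finset.range r, ((3 : ℝ) ^ (i + 1) - 1))) ∧
    (0.639 < p₀ ∧ p₀ < 0.6391) ∧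
    (∃ X₀ : ℕ, ∀ X : ℕ, X₀ ≤ X → 0.568 * ((all K X).ncard : ℝ) ≤
      (({B ∈ all K X | ThreePart (curve (B : K))}.ncard : ℕ) : ℝ)) ∧
    -- (3) the squarefree `B` and their residue classes modulo `3`
    HasShare (fun X => {B ∈ all K X | Squarefree B}) InClass (8 / 9) ∧
    HasShare (fun X => {B ∈ upTo K X | Squarefree B}) (fun B => ThreePart (curve (B : K))) p₀ ∧
    (∀ u : (𝓞 K)ˣ, HasShare (fun X => {B ∈ upTo K X | Squarefree B ∧ (3 : 𝓞 K) ∣ B - u})
      (fun B => ThreePart (curve (B : K))) p₀) ∧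
    (∃ X₀ : ℕ, ∀ X : ℕ, X₀ ≤ X →
      0.568 * ((({B ∈ all K X | Squarefree B}.ncard : ℕ) : ℝ)) ≤
      (({B ∈ all K X | Squarefree B ∧ ThreePart (curve (B : K))}.ncard : ℕ) : ℝ)) := by
  have hcr0 : Pool.Agent.Y703.XL.cr 0 = p₀ := by
    unfold Pool.Agent.Y703.XL.cr p₀
    rw [Finset.range_zero, Finset.prod_empty, div_one]
    rfl
  obtain ⟨-, -, s3, -, s5, s6, hp, -, s8⟩ := Pool.Agent.H428.AY.Sq.main K
  have hp' : 0.639 < p₀ ∧ p₀ < 0.6391 := hp
  -- the sets of the squarefree elements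
  have cfs : ∀ B : 𝓞 K, Squarefree B → ∀ π : 𝓞 K, Prime π → ¬ π ^ 3 ∣ B := by
    intro B hB π hπ hd
    have h3 : π * π ∣ B := (Dvd.intro π (by ring)).trans hd
    exact hπ.not_isUnit (hB π h3)
  have eA : ∀ X, {B ∈ all K X | Squarefree B} = Pool.Agent.H428.AY.Sq.all K X := by
    intro X
    ext B
    exact ⟨fun h => ⟨h.1.1, h.2, h.1.2.2⟩, fun h => ⟨⟨h.1, cfs B h.2.1, h.2.2⟩, h.2.1⟩⟩
  have eU : ∀ X, {B ∈ upTo K X | Squarefree B} = Pool.Agent.H428.AY.Sq.upTo K X := by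
    intro X
    ext B
    exact ⟨fun h => ⟨h.1.1, ⟨h.2, h.1.2.1.2⟩, h.1.2.2⟩,
      fun h => ⟨⟨h.1, ⟨cfs B h.2.1.1, h.2.1.2⟩, h.2.2⟩, h.2.1.1⟩⟩
  have eC : ∀ X, {B ∈ {B ∈ all K X | Squarefree B} | InClass B} =
      Pool.Agent.H428.AY.Sq.upTo K X := by
    intro X
    rw [← eU]
    ext B
    exact ⟨fun h => ⟨⟨h.1.1.1, h.2⟩, h.1.2⟩, fun h => ⟨⟨⟨h.1.1, h.1.2.1⟩, h.2⟩, h.1.2⟩⟩
  -- all the cube-free elements
  have hA : ∀ i : Fin 1, Pool.Agent.H462.JL.CfK ((fun _ : Fin 1 => (1 : 𝓞 K)) i) := by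
    intro i
    refine ⟨fun π hπ hd => hπ.not_isUnit (isUnit_of_dvd_one ((dvd_pow_self π three_ne_zero).trans hd)),
      ?_⟩
    rw [map_one]
    norm_num
  have hNe : Pool.Agent.H462.JL.NeK (fun _ : Fin 1 => (1 : 𝓞 K)) (fun _ => false) :=
    fun i j hij => absurd (Subsingleton.elim i j) hij
  have hcell : Pool.Agent.H462.JL.cellsK (fun _ : Fin 1 => (1 : 𝓞 K)) (fun _ => false) = 1 := by
    unfold Pool.Agent.H462.JL.cellsK
    rw [Set.range_unique, Set.ncard_singleton]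
  obtain ⟨k1, k2, k3, k4⟩ := Pool.Agent.H428.AX.final_law (A := fun _ : Fin 1 => (1 : 𝓞 K)) hA
  have e0 : ∀ X, Pool.Agent.H428.AX.upF (fun _ : Fin 1 => (1 : 𝓞 K)) X = all K X := by
    intro X
    ext B
    exact ⟨fun h => ⟨h.1, h.2.1⟩, fun h => ⟨h.1, h.2, fun _ => isCoprime_one_left⟩⟩
  simp only [e0] at k1 k2 k3 k4
  have e1 : ∀ X, {B ∈ all K X | ∀ _i : Fin 1, Pool.Agent.H428.AX.Gd ((1 : 𝓞 K) * B)} =
      {B ∈ all K X | InClass B} := by
    intro X
    ext B
    refine and_congr_right fun hB => ?_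
    rw [one_mul]
    exact ⟨fun h => ⟨hB.2, h 0⟩, fun h _ => h.2⟩
  have e2 : ∀ X, {B ∈ all K X | InClass B} = upTo K X := by
    intro X
    ext B
    exact ⟨fun h => ⟨h.1.1, h.2⟩, fun h => ⟨⟨h.1, h.2.1⟩, h.2⟩⟩
  have e3 : ∀ (r : ℕ) (X : ℕ), {B ∈ all K X | (∀ _i : Fin 1, Pool.Agent.H428.AX.Gd ((1 : 𝓞 K) * B)) ∧
      ∀ _i : Fin 1, Pool.Agent.H462.JL.CorKG ((1 : 𝓞 K) * B) r} = {B ∈ upTo K X | Corank B r} := by
    intro r X
    rw [← e2, ← e1]
    ext B
    constructor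
    · rintro ⟨h1, h2, h3⟩
      refine ⟨⟨h1, h2⟩, ?_⟩
      have h4 := h3 0
      rw [one_mul] at h4
      exact h4
    · rintro ⟨⟨h1, h2⟩, h3⟩
      refine ⟨h1, h2, fun _ => ?_⟩
      rw [one_mul]
      exact h3
  have h89 : (9 - ((1 : ℕ) : ℝ)) / 9 = 8 / 9 := by norm_num
  rw [hcell, h89] at k3
  have hshare : HasShare (all K) InClass (8 / 9) := by
    refine k3.congr fun X => ?_
    rw [e1]
  have hshare' : Filter.Tendsto (fun X : ℕ => ((upTo K X).ncard : ℝ) / ((all K X).ncard : ℝ))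
      Filter.atTop (nhds (8 / 9)) := by
    refine (hshare : Filter.Tendsto _ _ _).congr fun X => ?_
    rw [e2]
  have hne : ∀ᶠ X : ℕ in Filter.atTop, ((all K X).ncard : ℝ) ≠ 0 := by
    filter_upwards [(tendsto_order.1 hshare').1 0 (by norm_num)] with X hX
    intro h0
    rw [h0, div_zero] at hX
    exact lt_irrefl _ hX
  have hlaw0 : ∀ r : ℕ, Filter.Tendsto (fun X : ℕ =>
      (({B ∈ upTo K X | Corank B r}.ncard : ℕ) : ℝ) / ((all K X).ncard : ℝ)) Filter.atTop
      (nhds (8 / 9 * Pool.Agent.Y703.XL.cr r)) := by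
    intro r
    have h5 := k4 hNe fun _ => r
    rw [hcell, h89, Finset.prod_const, Finset.card_univ, Fintype.card_fin, pow_one] at h5
    refine h5.congr fun X => ?_
    rw [e3]
  have hlaw : ∀ r : ℕ, HasShare (upTo K) (fun B => Corank B r) (Pool.Agent.Y703.XL.cr r) := by
    intro r
    have h5 := (hlaw0 r).div hshare' (by norm_num)
    rw [mul_div_cancel_left₀ _ (by norm_num : (8 / 9 : ℝ) ≠ 0)] at h5
    refine h5.congr' ?_
    filter_upwards [hne] with X hX
    show (({B ∈ upTo K X | Corank B r}.ncard : ℕ) : ℝ) / ((all K X).ncard : ℝ) /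
      (((upTo K X).ncard : ℝ) / ((all K X).ncard : ℝ)) = _
    rw [div_div_div_cancel_right₀ hX]
  have e4 : ∀ X, {B ∈ upTo K X | ThreePart (curve (B : K))} = {B ∈ upTo K X | Corank B 0} := by
    intro X
    ext B
    exact and_congr_right fun hB => three_iff hB.2
  refine ⟨fun B hB => ?_, k1, k2, hshare, ?_, fun r => ?_, hp', ?_, ?_, ?_, fun u => ?_, ?_⟩
  · obtain ⟨r, hr, hun⟩ := corank_unique hB
    have hr0 : Corank B 0 ↔ r = 0 := ⟨fun h => (hun 0 h).symm, fun h => h ▸ hr⟩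
    obtain ⟨-, h2, h3, h4, L, c, z, h5, h6, h7, h8, h9, h10, h11, h12⟩ := each hB hr
    refine ⟨⟨r, hr, hun⟩, (three_iff hB).trans (hr0.trans h2.symm), h2.trans hr0.symm,
      fun r' hr' => (each hB hr').1, h3, h4, L, c, z, h5, h6, h7, h8, h9, h10, h11,
      h12.trans h2.symm⟩
  · have h5 := hlaw 0
    rw [hcr0] at h5
    refine (h5 : Filter.Tendsto _ _ _).congr fun X => ?_
    rw [e4]
  · have h5 := hlaw r
    have h6 : Pool.Agent.Y703.XL.cr r = p₀ / ∏ i ∈ Finset.range r, ((3 : ℝ) ^ (i + 1) - 1) := rfl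
    rw [← h6]
    exact h5
  · have h5 := hlaw0 0
    rw [hcr0] at h5
    obtain ⟨X₀, k⟩ := eventually_share h5 (8 / 9 * p₀ - 0.568) (by linarith [hp'.1])
    refine ⟨X₀, fun X hX => ?_⟩
    have h7 := k X hX
    rw [sub_sub_cancel, ← e4] at h7
    refine h7.trans ?_
    norm_cast
    refine Set.ncard_le_ncard ?_ ((k1 X).subset fun D hD => hD.1)
    rintro D ⟨m1, m2⟩
    exact ⟨⟨m1.1, m1.2.1⟩, m2⟩
  · refine (s3 : Filter.Tendsto _ _ _).congr fun X => ?_
    beta_reduce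
    rw [eC, eA]
  · refine (s5 : Filter.Tendsto _ _ _).congr fun X => ?_
    beta_reduce
    rw [eU]
    rfl
  · refine (s6 u : Filter.Tendsto _ _ _).congr fun X => ?_
    have e5 : {B ∈ upTo K X | Squarefree B ∧ (3 : 𝓞 K) ∣ B - u} =
        {D ∈ Pool.Agent.H428.AY.Sq.upTo K X | (3 : 𝓞 K) ∣ D - u} := by
      rw [← eU]
      ext B
      exact ⟨fun h => ⟨⟨h.1, h.2.1⟩, h.2.2⟩, fun h => ⟨h.1.1, h.1.2, h.2⟩⟩
    beta_reduce
    rw [e5]
    congr 2
    congr 1
    ext B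
    exact ⟨fun h => ⟨⟨h.1, h.2.1⟩, h.2.2⟩, fun h => ⟨h.1.1, h.1.2, h.2⟩⟩
  · obtain ⟨X₀, k⟩ := s8
    refine ⟨X₀, fun X hX => ?_⟩
    have h7 := k X hX
    rw [eA]
    refine h7.trans (le_of_eq ?_)
    congr 2
    ext B
    rw [← eA]
    exact ⟨fun h => ⟨h.1.1, h.1.2, h.2⟩, fun h => ⟨⟨h.1, h.2.1⟩, h.2.2⟩⟩

end Pool.Agent.Results.MP_e996df_nt.CubicTwistsThreePart
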