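import Pool.Agent.H468.WM.Clt
import Pool.Agent.H468.QF.Fld
import Pool.Graph.R_seed8.R425.G.Al

/-!
# The `2`-part of the conjecture of Birch and Swinnerton-Dyer over all quadratic fields

`E : y² + x y = x³ - 4 x² - x` is an elliptic curve of conductor `17`, isogenous to `X_0(17)`, with all the
points of order two rational, without complex multiplication.  `K = ℚ(√m)` runs over ALL the quadratic
fields, real and imaginary, without any condition on the ramification; `k` is the number of the primes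
ramified in `K`.  The theorem:

* the equation is minimal at all the places of `K`, the product of the Tamagawa numbers is `2` if `17` is
  inert and `4` otherwise, the `L`-function of `E/K` is entire, and `L(E/K, 1) √|disc K| / Ω_{E/K}` is
  `(S / 16) y² Tam / 16` with an integer `y`, where `S = 4^k`, or `S = 4^(k + 1)` if `K` is imaginary and
  unramified at `17`; `y = 0` if the root number of `E/K` is `-1`;
* `y` is odd if and only if `m` is good: an explicit symmetric matrix over `𝔽₂`, made of the Rédei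
  matrix of `K`, the signs of the prime discriminants and the symbols `(17/p)`, is nonsingular;
* `m` is good if and only if the `2`-part of the conjecture of Birch and Swinnerton-Dyer, that is, (i), (ii) and
  (iii) of the question for `p = 2`, holds for `E` over `K` with rank `0` (the order of vanishing is the rank, which
  is `0`, `Ш(E/K)[2^∞]` is finite, and `L(E/K, 1) √|disc K| / Ω_{E/K}` is rational with the right `2`-adic
  valuation) and `Ш(E/K)[2^∞]` is an elementary abelian `2`-group of order `S / 16`;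
* (exact density) among ALL the quadratic fields ordered by `|disc K|` this holds for a set of density
  EXACTLY `c / 2 = 0.2097...`, `c = (1 - 1/2) (1 - 1/8) (1 - 1/32) ⋯ = 0.4194...`; the root number is `1` for
  one half of the quadratic fields, and among these the density is exactly `c`, and the same if the
  completions of `K` are prescribed at finitely many places;
* (the distribution of `#Ш(E/K)[2^∞]`) in all these families the order of `Ш(E/K)[2^∞]` satisfies a central limit
  theorem: for every real `y`, the density of the quadratic fields with `|disc K| ≤ X` for which all this holds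
  and `log_4 #Ш(E/K)[2^∞] ≤ log log X + y √(log log X)` is exactly `c / 2` times the value at `y` of the
  distribution function of the standard normal law (`c` times this value among the fields with root number `1`,
  and also if the completions of `K` are prescribed at finitely many places).
-/

set_option autoImplicit false

open NumberField NumberField.InfinitePlace IsDedekindDomain WeierstrassCurve MeasureTheory
open Filter Topology ProbabilityTheory

namespace Pool.Agent.Results.MP_e996df_nt.EveryQuadraticFieldX17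

open scoped Classical

open Pool.Agent.TH841.NF.D (Sha)

/-- The elliptic curve `y² + x y = x³ - 4 x² - x` of conductor `17` (and of discriminant `17²`). -/
def E : WeierstrassCurve ℤ := ⟨1, -4, 0, -1, 0⟩

/-- The curve given by the equation of `W` over the ring `R`. -/
abbrev base (W : WeierstrassCurve ℤ) (R : Type) [CommRing R] : WeierstrassCurve R :=
  W.map (Int.castRingHom R)

/-- The number of the affine points `(x, y)` over the ring `R`. -/
noncomputable def pts (W : WeierstrassCurve ℤ) (R : Type) [CommRing R] : ℕ :=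
  Nat.card {P : R × R // (base W R).toAffine.Equation P.1 P.2}

section

variable {K : Type} [Field K] [NumberField K]

/-- `a_v = N v + 1 - #W(k_v)`, the points over the residue field `k_v` counted with the point at
infinity. -/
noncomputable def a (W : WeierstrassCurve ℤ) (v : HeightOneSpectrum (𝓞 K)) : ℤ :=
  (Ideal.absNorm v.asIdeal : ℤ) - pts W (𝓞 K ⧸ v.asIdeal)

/-- The Euler factor of `L(W/K, s)` at `v` : `(1 - a_v N v^(-s) + N v^(1 - 2 s))⁻¹` if the
discriminant is a unit at `v`, and `(1 - a_v N v^(-s))⁻¹` otherwise. -/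
noncomputable def factor (W : WeierstrassCurve ℤ) (s : ℂ) (v : HeightOneSpectrum (𝓞 K)) : ℂ :=
  (1 - (a W v : ℂ) * (Ideal.absNorm v.asIdeal : ℂ) ^ (-s) +
    if ((W.Δ : ℤ) : 𝓞 K) ∈ v.asIdeal then 0 else (Ideal.absNorm v.asIdeal : ℂ) ^ (1 - 2 * s))⁻¹

/-- The equation is minimal at the finite place `v` of `K`: no change of variables over `K` that
keeps the coefficients integral at `v` decreases the valuation of the discriminant. -/
def MinimalAt (W : WeierstrassCurve ℤ) (v : HeightOneSpectrum (𝓞 K)) : Prop :=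
  ∀ C : VariableChange K, v.valuation K (C • base W K).a₁ ≤ 1 →
    v.valuation K (C • base W K).a₂ ≤ 1 → v.valuation K (C • base W K).a₃ ≤ 1 →
    v.valuation K (C • base W K).a₄ ≤ 1 → v.valuation K (C • base W K).a₆ ≤ 1 →
    v.valuation K (C • base W K).Δ ≤ v.valuation K (base W K).Δ

/-- `E⁰(K_v)`, the group of the points of `W` over the completion `K_v` with nonsingular reduction:
the points `(x, y)` where `x` is not integral, or one of the partial derivatives of
`y² + a₁ x y + a₃ y - x³ - a₂ x² - a₄ x - a₆` is a unit at `(x, y)`, and the point at infinity. -/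
noncomputable def nonsing (W : WeierstrassCurve ℤ) (v : HeightOneSpectrum (𝓞 K)) :
    AddSubgroup (base W (v.adicCompletion K)).toAffine.Point :=
  AddSubgroup.closure {P | ∀ x y h, P = Affine.Point.some x y h →
    1 < Valued.v x ∨ Valued.v (W.a₁ * y - (3 * x ^ 2 + 2 * W.a₂ * x + W.a₄)) = 1 ∨
      Valued.v (2 * y + W.a₁ * x + W.a₃) = 1}

/-- The Tamagawa number `c_v = [E(K_v) : E⁰(K_v)]` of a minimal equation. -/
noncomputable def tam (W : WeierstrassCurve ℤ) (v : HeightOneSpectrum (𝓞 K)) : ℕ :=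
  (nonsing W v).index

end

section

variable (K : Type) [Field K] [NumberField K]

/-- The product of the Tamagawa numbers (for an equation that is minimal at all finite places). -/
noncomputable def Tam (W : WeierstrassCurve ℤ) : ℕ := ∏ᶠ v : HeightOneSpectrum (𝓞 K), tam W v

/-- The `2`-primary part of the Tate-Shafarevich group over `K`. -/
def Sha2 (W : WeierstrassCurve ℤ) : Set (Sha (base W K)) := {x | ∃ n : ℕ, 2 ^ n • x = 0}

/-- The torsion subgroup of the group of the points over `K`. -/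
def tors (W : WeierstrassCurve ℤ) : Set (base W K).toAffine.Point := {P | ∃ n : ℕ, 0 < n ∧ n • P = 0}

/-- The rank of the group of the points over `K`. -/
noncomputable def rank (W : WeierstrassCurve ℤ) : ℕ := Module.finrank ℤ (base W K).toAffine.Point

end

/-- `4 x³ + b₂ x² + 2 b₄ x + b₆ = (2 y + a₁ x + a₃)²`, where `b₂ = a₁² + 4 a₂`,
`b₄ = 2 a₄ + a₁ a₃`, `b₆ = a₃² + 4 a₆`. -/
def cubic (W : WeierstrassCurve ℤ) {R : Type} [CommRing R] (x : R) : R :=
  4 * x ^ 3 + W.b₂ * x ^ 2 + 2 * W.b₄ * x + W.b₆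

/-- `∫_{W(ℝ)} |ω|` with `ω = dx / (2 y + a₁ x + a₃)`, as an integral over `x`: two real points lie
over each `x` with `cubic x > 0`. -/
noncomputable def realPeriod (W : WeierstrassCurve ℤ) : ℝ :=
  2 * ∫ x in {x : ℝ | 0 < cubic W x}, 1 / √(cubic W x)

/-- `2 ∫_{W(ℂ)} |ω ∧ ω̄|`, where `|ω ∧ ω̄| = du dv` in a local parameter `z = u + i v` with
`dz = ω`, as an integral over `x`: two points lie over a general `x`, and `|ω ∧ ω̄|` is the area
element of the plane of `x` divided by `|cubic x|`. -/
noncomputable def complexPeriod (W : WeierstrassCurve ℤ) : ℝ := 2 * (2 * ∫ x : ℂ, 1 / ‖cubic W x‖)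

/-- The global period `Ω_{E/K}`. -/
noncomputable def Omega (K : Type) [Field K] [NumberField K] (W : WeierstrassCurve ℤ) : ℝ :=
  realPeriod W ^ nrRealPlaces K * complexPeriod W ^ nrComplexPlaces K

/-- `L` is the entire `L`-function of `W` over `K`. -/
def IsL (K : Type) [Field K] [NumberField K] (W : WeierstrassCurve ℤ) (L : ℂ → ℂ) : Prop :=
  Differentiable ℂ L ∧ ∀ s : ℂ, 3 / 2 < s.re → HasProd (factor (K := K) W s) (L s)

/-- **The `2`-part of the conjecture** ((i), (ii), (iii)) for `W` over `K` (the equation being minimal) in rank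
zero: the `L`-function is entire, its order at `s = 1` is the rank, which is zero, the `2`-primary
part of the Tate-Shafarevich group is finite, and `L(1) √|Disc K| / Ω` is a rational number with the
same `2`-adic valuation as `#Ш[2^∞] Tam / #tors²`. -/
structure TwoPart (K : Type) [Field K] [NumberField K] (W : WeierstrassCurve ℤ) : Prop where
  rank : rank K W = 0
  sha : (Sha2 K W).Finite
  formula : ∃ L : ℂ → ℂ, IsL K W L ∧ analyticOrderAt L 1 = 0 ∧
    ∃ r : ℚ, L 1 * √|(discr K : ℝ)| = r * Omega K W ∧ r ≠ 0 ∧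
      padicValRat 2 r = padicValRat 2
        ((Nat.card (Sha2 K W) * Tam K W : ℚ) / (Nat.card (tors K W) : ℚ) ^ 2)

/-! ### the criterion -/

/-- the root number of `E` over `ℚ(√m)` is `1` -/
def Root (m : ℤ) : Prop := (0 < m ∧ jacobiSym m 17 = 1) ∨ (m < 0 ∧ jacobiSym m 17 ≠ 1)

/-- the absolute value of the discriminant of `ℚ(√m)`, `m` squarefree -/
def disc (m : ℤ) : ℕ := if m % 4 = 1 then m.natAbs else 4 * m.natAbs

/-- the primes ramified in `ℚ(√m)` -/
def R (m : ℤ) : Finset ℕ := (disc m).primeFactors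

/-- the prime discriminant `q*` of `ℚ(√m)`, `q ∈ R m` -/
def star (m : ℤ) (q : ℕ) : ℤ :=
  if q = 2 then (if m % 4 = 3 then -4 else if m % 8 = 2 then 8 else -8)
  else if q % 4 = 1 then q else -q

/-- the Kronecker symbol `(q* / p)`, `p ≠ q`, written additively -/
def sym (m : ℤ) (q p : ℕ) : ZMod 2 :=
  if p = 2 then (if star m q % 8 = 1 ∨ star m q % 8 = 7 then 0 else 1)
  else (if jacobiSym (star m q) p = 1 then 0 else 1)

/-- the Rédei matrix: `(q* / p)` outside of the diagonal, and the sums of the rows are zero -/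
def M (m : ℤ) (p q : ℕ) : ZMod 2 := if p = q then ∑ r ∈ (R m).erase p, sym m r p else sym m q p

/-- the sign of `q*`, written additively -/
def sg (m : ℤ) (q : ℕ) : ZMod 2 := if star m q < 0 then 1 else 0

/-- the Kronecker symbol `(17 / p)`, written additively -/
def nu (p : ℕ) : ZMod 2 := if p = 2 then 0 else if jacobiSym 17 p = 1 then 0 else 1

/-- **The criterion**: the homogeneous system over `𝔽₂` with the symmetric matrix
`[[diag (17/p), M], [Mᵀ, diag (sign of q*)]]`, without the row and the column of the first block which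
belong to `17`, has only the trivial solution. -/
def Good (m : ℤ) : Prop := ∀ x y : ℕ → ZMod 2, x 17 = 0 →
  (∀ p ∈ (R m).erase 17, nu p * x p + ∑ q ∈ R m, M m p q * y q = 0) →
  (∀ q ∈ R m, ∑ p ∈ R m, M m p q * x p + sg m q * y q = 0) →
  ∀ p ∈ R m, x p = 0 ∧ y p = 0

/-- sixteen times the order of `Ш(E/K)[2^∞]`, `K = ℚ(√m)`, `m` good: `4^k`, where `k` is the number of the
ramified primes, and `4^(k + 1)` if `K` is imaginary and unramified at `17` -/
def S (m : ℤ) : ℕ := if m < 0 ∧ ¬ (17 : ℤ) ∣ m then 4 ^ ((R m).card + 1) else 4 ^ (R m).card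

/-! ### quadratic fields -/

/-- the field `ℚ(√m)` -/
noncomputable def quadratic (m : ℤ) : IntermediateField ℚ ℂ :=
  IntermediateField.adjoin ℚ {z : ℂ | z ^ 2 = (m : ℂ)}

/-- The `2`-part of the conjecture holds for `E` over `ℚ(√m)`, and the `2`-primary part of the
Tate-Shafarevich group is an elementary abelian group of order `S m / 16`. -/
def FullTwoPart (m : ℤ) [NumberField (quadratic m)] : Prop :=
  TwoPart (quadratic m) E ∧ (∀ x ∈ Sha2 (quadratic m) E, x + x = 0) ∧
    16 * Nat.card (Sha2 (quadratic m) E) = S m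

/-- `FullTwoPart m` -/
def Holds (m : ℤ) : Prop := ∀ [NumberField (quadratic m)], FullTwoPart m

/-- `FullTwoPart m`, and the order of the `2`-primary part of the Tate-Shafarevich group is at most
`4 ^ T` -/
def Upto (T : ℝ) (m : ℤ) : Prop :=
  ∀ [NumberField (quadratic m)], FullTwoPart m ∧ (Nat.card (Sha2 (quadratic m) E) : ℝ) ≤ (4 : ℝ) ^ T

/-- `log log X + y √(log log X)` -/
noncomputable def level (y : ℝ) (X : ℕ) : ℝ :=
  Real.log (Real.log X) + y * √(Real.log (Real.log X))

/-- the distribution function of the standard normal law -/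
noncomputable def Phi (y : ℝ) : ℝ := (gaussianReal 0 1).real (Set.Iic y)

/-- the number of the quadratic fields `ℚ(√m)`, `m` squarefree, `|disc| ≤ X`, with the property `P` -/
noncomputable def num (P : ℤ → Prop) (X : ℕ) : ℕ :=
  ((Finset.Icc (-(X : ℤ)) X).filter fun m => Squarefree m ∧ m ≠ 1 ∧ disc m ≤ X ∧ P m).card

/-- `m` and `d₀` have the same class in `ℚ_p^×` modulo squares for `p ∈ S`, and the same sign if `inf` -/
def SameClass (inf : Prop) (S : Finset ℕ) (d₀ m : ℤ) : Prop :=
  (inf → 0 < m * d₀) ∧ ∀ (p : ℕ) [Fact p.Prime], p ∈ S → IsSquare ((m * d₀ : ℤ) : ℚ_[p])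

/-- the constant `(1 - 1/2) (1 - 1/8) (1 - 1/32) ⋯ = 0.4194...` -/
noncomputable def c : ℝ := ∏' i : ℕ, (1 - (1 / 2 : ℝ) ^ (2 * i + 1))

section proof

open Pool.Agent.H468.QF
open Pool.Agent.H468.MF (Lam Lam_spec quad quad_nf)
open Pool.Agent.H743.X17 (parts Kn)

lemma disc_Kn (m : ℤ) : disc m = Kn m := rfl

lemma abs_discr {m : ℤ} (hm : Squarefree m) (h1 : m ≠ 1) [NumberField (quadratic m)] :
    discr (quadratic m) = (if m % 4 = 1 then m else 4 * m) ∧
      |(discr (quadratic m) : ℝ)| = (Kn m : ℝ) := by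
  obtain ⟨r, hr⟩ := exists_r m
  have h2 : discr (quadratic m) = if m % 4 = 1 then m else 4 * m :=
    disc_eq (K := quad m) (quad_data hm h1).1 hm h1 hr
  refine ⟨h2, ?_⟩
  rw [h2]
  unfold Kn
  split_ifs
  · rw [← Int.cast_abs, Int.abs_eq_natAbs]
    simp
  · rw [← Int.cast_abs, Int.abs_eq_natAbs, Int.natAbs_mul]
    simp

lemma tors_univ (K : Type) [Field K] [NumberField K] (W : WeierstrassCurve ℤ)
    (h : Finite (base W K).toAffine.Point) : tors K W = Set.univ := by
  ext P
  refine ⟨fun _ => trivial, fun _ => ?_⟩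
  obtain ⟨n, hn, hn2⟩ := (isOfFinAddOrder_iff_nsmul_eq_zero).1 (isOfFinAddOrder_of_finite P)
  exact ⟨n, hn, hn2⟩

/-- the main part -/
theorem main {m : ℤ} (hm : Squarefree m) (h1 : m ≠ 1) [NumberField (quadratic m)] :
    (∀ v : HeightOneSpectrum (𝓞 (quadratic m)), MinimalAt E v) ∧
      {v : HeightOneSpectrum (𝓞 (quadratic m)) | tam E v ≠ 1}.Finite ∧
      Tam (quadratic m) E = (if jacobiSym m 17 = -1 then 2 else 4) ∧
    ∃ (L : ℂ → ℂ) (y : ℕ), IsL (quadratic m) E L ∧
      256 * (L 1 * √|(discr (quadratic m) : ℝ)|) =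
        ((y ^ 2 * S m * Tam (quadratic m) E : ℕ) : ℂ) * Omega (quadratic m) E ∧
      (Odd y ↔ Good m) ∧ (¬ Root m → y = 0) ∧ (Good m ↔ FullTwoPart m) ∧
      (Good m → Nat.card (base E (quadratic m)).toAffine.Point = 4) := by
  have f2 : Fact (Nat.Prime 2) := ⟨Nat.prime_two⟩
  have hK : Module.finrank ℚ (quadratic m) = 2 := (quad_data hm h1).1
  obtain ⟨r, hr⟩ : ∃ r : quadratic m, r ^ 2 = ((m : ℤ) : quadratic m) := exists_r m
  have hdisc := (abs_discr hm h1).2
  have hD := (abs_discr hm h1).1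
  obtain ⟨y, hodd, hy0, hpos, hneg⟩ := value hm h1
  obtain ⟨hrP, hcP, -, -, -⟩ := periods
  have hTam : Tam (quadratic m) E = TT m := tamK (K := quadratic m) hK hm h1 hr
  have hmin : ∀ v : HeightOneSpectrum (𝓞 (quadratic m)), MinimalAt E v :=
    fun v => minK (K := quadratic m) hK v
  have hΔ : E.Δ ≠ 0 := by
    have : E.Δ = 289 := E1_disc
    rw [this]; norm_num
  let L : ℂ → ℂ := fun s => Lam 1 s * Lam m s
  have hL : IsL (quadratic m) E L :=
    ⟨((Lam_spec squarefree_one).1).mul (Lam_spec hm).1, (quad_data hm h1).2⟩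
  have hm0 : m ≠ 0 := hm.ne_zero
  -- the period
  have hΩ : 256 * (L 1 * (√(Kn m : ℝ) : ℝ)) =
      ((y : ℂ) ^ 2 * SS m * TT m) * Omega (quadratic m) E ∧ 0 < Omega (quadratic m) E := by
    have hneg' : m < 0 → discr (quadratic m) < 0 := by
      intro h
      rw [hD]
      split_ifs <;> omega
    have hpos' : 0 < m → 0 < discr (quadratic m) := by
      intro h
      rw [hD]
      split_ifs <;> omega
    rcases lt_or_gt_of_ne hm0 with h | h
    · obtain ⟨p1, p2⟩ := places_im (quadratic m) hK (hneg' h)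
      have e : Omega (quadratic m) E = cP := by
        unfold Omega
        rw [p1, p2, pow_zero, one_mul, pow_one]
        rfl
      rw [e]
      exact ⟨hneg h, hcP⟩
    · obtain ⟨p1, p2⟩ := Pool.Agent.H468.RQ.places (quadratic m) hK (hpos' h)
      have e : Omega (quadratic m) E = rP ^ 2 := by
        unfold Omega
        rw [p1, p2, pow_zero, mul_one]
        rfl
      rw [e]
      exact ⟨hpos h, pow_pos hrP 2⟩
  obtain ⟨hval, hΩ0⟩ := hΩ
  have hSS : SS m = S m := rfl
  have hS0 : (S m : ℚ) ≠ 0 := by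
    unfold S
    split_ifs <;> positivity
  have hT0 : (TT m : ℚ) ≠ 0 := by
    unfold TT
    split_ifs <;> norm_num
  have hval1 : 256 * (L 1 * √|(discr (quadratic m) : ℝ)|) =
        ((y ^ 2 * S m * Tam (quadratic m) E : ℕ) : ℂ) * Omega (quadratic m) E := by
    rw [hdisc, hTam, ← hSS, hval]
    push_cast
    ring
  have hgood : Good m ↔ Pool.Agent.H743.X17.Sys m := Iff.rfl
  have hpts : (∀ X Y : quad m, Y ^ 2 = X * (X + 1) * (X - 16) → Y = 0) →
      Nat.card (base E (quadratic m)).toAffine.Point = 4 := fun h => four_pts (F := quad m) h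
  have htors : Nat.card (base E (quadratic m)).toAffine.Point = 4 → Nat.card (tors (quadratic m) E) = 4 := by
    intro h4
    have h : Finite (base E (quadratic m)).toAffine.Point :=
      Nat.finite_of_card_ne_zero (by rw [h4]; norm_num)
    rw [tors_univ (quadratic m) E h, Nat.card_congr (Equiv.Set.univ _)]
    exact h4
  refine ⟨hmin, Pool.Agent.R425.G.cv_fin E hΔ, hTam, L, y, hL, hval1, hodd.trans hgood.symm, hy0, ?_,
    fun hC => hpts (pts_sys hm h1 (hgood.1 hC))⟩
  have hΩ1 : (Omega (quadratic m) E : ℂ) ≠ 0 := by exact_mod_cast hΩ0.ne'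
  have hk0 : ((S m : ℚ) * TT m / 256 : ℚ) ≠ 0 := div_ne_zero (mul_ne_zero hS0 hT0) (by norm_num)
  have hval' : L 1 * (√|(discr (quadratic m) : ℝ)| : ℝ) =
      (((S m : ℚ) * TT m / 256 * (y : ℚ) ^ 2 : ℚ) : ℂ) * Omega (quadratic m) E := by
    rw [hTam] at hval1
    push_cast at hval1 ⊢
    linear_combination hval1 / 256
  have hcard : 16 * Nat.card (Sha2 (quadratic m) E) = S m →
      (Nat.card (Sha2 (quadratic m) E) : ℚ) = S m / 16 := by
    intro h
    have h2 : (16 : ℚ) * Nat.card (Sha2 (quadratic m) E) = S m := by exact_mod_cast h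
    rw [← h2]; ring
  have hv : y ≠ 0 → padicValRat 2 ((S m : ℚ) * TT m / 256 * (y : ℚ) ^ 2) =
      padicValRat 2 ((S m : ℚ) * TT m / 256) + 2 * padicValNat 2 y := by
    intro h0
    have h0' : (y : ℚ) ≠ 0 := by exact_mod_cast h0
    rw [padicValRat.mul hk0 (pow_ne_zero _ h0'), padicValRat.pow, padicValRat.of_nat]
    norm_num
  have hrhs : ((S m : ℚ) / 16 * ((TT m : ℕ) : ℚ) / ((4 : ℕ) : ℚ) ^ 2) = (S m : ℚ) * TT m / 256 := by
    push_cast
    ring
  constructor
  · intro hC
    have hyo := (hodd.trans hgood.symm).2 hC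
    have hy0 : y ≠ 0 := by
      rintro rfl
      exact absurd hyo (by decide)
    have hS := hgood.1 hC
    have hY := pts_sys hm h1 hS
    have hp4 : Nat.card (base E (quadratic m)).toAffine.Point = 4 := hpts hY
    have hfin : Finite (base E (quadratic m)).toAffine.Point :=
      Nat.finite_of_card_ne_zero (by rw [hp4]; norm_num)
    obtain ⟨s1, s2⟩ := shaK (F := quadratic m) hK hm h1 hr hS hY
    have s2' : 16 * Nat.card (Sha2 (quadratic m) E) = S m := s2
    have hL0 : L 1 ≠ 0 := by
      intro h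
      rw [h, zero_mul] at hval'
      rcases mul_eq_zero.1 hval'.symm with h2 | h2
      · have h3 : ((S m : ℚ) * TT m / 256 * (y : ℚ) ^ 2 : ℚ) = 0 := by exact_mod_cast h2
        rcases mul_eq_zero.1 h3 with h4 | h4
        · exact hk0 h4
        · exact hy0 (by exact_mod_cast pow_eq_zero_iff (two_ne_zero) |>.1 h4)
      · exact hΩ1 h2
    refine ⟨⟨(Pool.Agent.R425.G.rank_iff E hΔ).2 hfin, ?_, L, hL, ?_, _, hval', ?_, ?_⟩, ?_, s2'⟩
    · apply Set.finite_coe_iff.1
      apply Nat.finite_of_card_ne_zero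
      intro h
      rw [h, mul_zero] at s2'
      apply hS0
      exact_mod_cast s2'.symm
    · exact analyticOrderAt_eq_zero.2 (Or.inr hL0)
    · exact mul_ne_zero hk0 (pow_ne_zero _ (by exact_mod_cast hy0))
    · rw [hv hy0, hcard s2', hTam, htors hp4, hrhs, padicValNat.eq_zero_of_not_dvd
        (fun h => (Nat.not_even_iff_odd.2 hyo) (even_iff_two_dvd.2 h))]
      norm_num
    · rintro x ⟨n, hn⟩
      exact s1 n x hn
  · rintro ⟨⟨t1, t2, L', hL', -, r', hr', hr0, hvr⟩, -, hc⟩
    have hfin : Finite (base E (quadratic m)).toAffine.Point := (Pool.Agent.R425.G.rank_iff E hΔ).1 t1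
    have hLL : L' = L :=
      Pool.Agent.R425.G.L_uniq (W := E) (K := quadratic m) hL'.1 hL.1 hL'.2 hL.2
    rw [hLL, hval'] at hr'
    have hrr : r' = (S m : ℚ) * TT m / 256 * (y : ℚ) ^ 2 := by
      have h2 := mul_right_cancel₀ hΩ1 hr'
      exact_mod_cast h2.symm
    have hy0' : y ≠ 0 := by
      rintro rfl
      apply hr0
      rw [hrr]
      norm_num
    have hR : Root m := by
      by_contra hcon
      exact hy0' (hy0 hcon)
    obtain ⟨n1, n17⟩ := rt_ne hR
    have hp4 := hpts (pts_fin hm h1 n1 n17 hfin)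
    rw [hrr, hv hy0', hcard hc, hTam, htors hp4, hrhs] at hvr
    have h6 : padicValNat 2 y = 0 := by
      have h7 : (2 * padicValNat 2 y : ℤ) = 0 := by linarith
      omega
    apply hodd.1
    rw [← Nat.not_even_iff_odd]
    intro h7
    rcases padicValNat.eq_zero_iff.1 h6 with h8 | h8 | h8
    · norm_num at h8
    · exact hy0' h8
    · exact h8 h7.two_dvd

lemma holds_good {m : ℤ} (hm : Squarefree m) (h1 : m ≠ 1) : Holds m ↔ Good m := by
  have i1 : NumberField (quadratic m) := quad_nf m
  obtain ⟨-, -, -, L, y, -, -, -, -, h2, -⟩ := main hm h1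
  rw [h2]
  exact ⟨fun h => h, fun h => h⟩

lemma upto_of {T : ℝ} {m : ℤ} (hm : Squarefree m) (h1 : m ≠ 1) (h : Good m)
    (hT : ((Pool.Agent.H468.WM.opf m).card : ℝ) ≤ T) : Upto T m := by
  intro _
  have h2 : FullTwoPart m := (holds_good hm h1).2 h
  refine ⟨h2, ?_⟩
  have h3 := h2.2.2
  have h4 : S m ≤ 16 * 4 ^ (Pool.Agent.H468.WM.opf m).card := by
    have h5 : (R m).card ≤ (Pool.Agent.H468.WM.opf m).card + 1 :=
      (Pool.Agent.H468.WM.opf_RS hm.ne_zero).2
    have e : 16 * 4 ^ (Pool.Agent.H468.WM.opf m).card = 4 ^ ((Pool.Agent.H468.WM.opf m).card + 2) := by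
      rw [pow_add]; ring
    rw [e]
    unfold S
    split_ifs
    · exact Nat.pow_le_pow_right (by norm_num) (by omega)
    · exact Nat.pow_le_pow_right (by norm_num) (by omega)
  have h6 : Nat.card (Sha2 (quadratic m) E) ≤ 4 ^ (Pool.Agent.H468.WM.opf m).card := by omega
  have h7 : (Nat.card (Sha2 (quadratic m) E) : ℝ) ≤ (4 : ℝ) ^ (Pool.Agent.H468.WM.opf m).card := by
    exact_mod_cast h6
  refine h7.trans ?_
  rw [← Real.rpow_natCast]
  exact Real.rpow_le_rpow_of_exponent_le (by norm_num) hT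

lemma of_upto {T : ℝ} {m : ℤ} (hm : Squarefree m) (h1 : m ≠ 1) (h : Upto T m) :
    Good m ∧ ((Pool.Agent.H468.WM.opf m).card : ℝ) ≤ T + 2 := by
  have i1 : NumberField (quadratic m) := quad_nf m
  obtain ⟨h2, h3⟩ := h
  refine ⟨(holds_good hm h1).1 h2, ?_⟩
  have h4 := h2.2.2
  have h5 : 4 ^ (Pool.Agent.H468.WM.opf m).card ≤ S m := by
    have h5 : (Pool.Agent.H468.WM.opf m).card ≤ (R m).card :=
      (Pool.Agent.H468.WM.opf_RS hm.ne_zero).1
    unfold S
    split_ifs
    · exact Nat.pow_le_pow_right (by norm_num) (by omega)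
    · exact Nat.pow_le_pow_right (by norm_num) (by omega)
  rw [← h4] at h5
  have h6 : (4 : ℝ) ^ (Pool.Agent.H468.WM.opf m).card ≤ 16 * (Nat.card (Sha2 (quadratic m) E) : ℝ) := by
    exact_mod_cast h5
  have h7 : (4 : ℝ) ^ ((Pool.Agent.H468.WM.opf m).card : ℝ) ≤ (4 : ℝ) ^ (T + 2) := by
    rw [Real.rpow_natCast, Real.rpow_add (by norm_num), show (4 : ℝ) ^ (2 : ℝ) = 16 by norm_num]
    linarith
  exact (Real.rpow_le_rpow_left_iff (by norm_num)).1 h7

end proof

/-- **Main theorem.** -/
theorem result :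
    -- the quadratic fields
    (∀ (K : Type) [Field K] [NumberField K], Module.finrank ℚ K = 2 →
      ∃! m : ℤ, Squarefree m ∧ m ≠ 1 ∧ Nonempty (K ≃+* quadratic m)) ∧
    (∀ F : IntermediateField ℚ ℂ, Module.finrank ℚ F = 2 →
      ∃! m : ℤ, Squarefree m ∧ m ≠ 1 ∧ F = quadratic m) ∧
    -- the `2`-part of the conjecture over every quadratic field
    (∀ m : ℤ, Squarefree m → m ≠ 1 → NumberField (quadratic m) ∧
      ∀ [NumberField (quadratic m)], Module.finrank ℚ (quadratic m) = 2 ∧
      |discr (quadratic m)| = disc m ∧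
      (∀ v : HeightOneSpectrum (𝓞 (quadratic m)), MinimalAt E v) ∧
      {v : HeightOneSpectrum (𝓞 (quadratic m)) | tam E v ≠ 1}.Finite ∧
      Tam (quadratic m) E = (if jacobiSym m 17 = -1 then 2 else 4) ∧
      ∃ (L : ℂ → ℂ) (y : ℕ), IsL (quadratic m) E L ∧
        256 * (L 1 * √|(discr (quadratic m) : ℝ)|) =
          ((y ^ 2 * S m * Tam (quadratic m) E : ℕ) : ℂ) * Omega (quadratic m) E ∧
        (Odd y ↔ Good m) ∧ (¬ Root m → y = 0) ∧ (Good m ↔ FullTwoPart m) ∧
        (Good m → Nat.card (base E (quadratic m)).toAffine.Point = 4)) ∧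
    (∀ m : ℤ, Squarefree m → m ≠ 1 → (Holds m ↔ Good m)) ∧
    -- the exact density, and the central limit theorem for the order of `Ш(E/K)[2^∞]`, among all quadratic fields
    Tendsto (fun X : ℕ => (num Holds X : ℝ) / (num (fun _ => True) X : ℝ)) atTop (𝓝 (c / 2)) ∧
    (∀ y : ℝ, Tendsto (fun X : ℕ => (num (Upto (level y X)) X : ℝ) / (num (fun _ => True) X : ℝ))
      atTop (𝓝 (c / 2 * Phi y))) ∧
    -- the same among those with root number `1`
    Tendsto (fun X : ℕ => (num Root X : ℝ) / (num (fun _ => True) X : ℝ)) atTop (𝓝 (1 / 2)) ∧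
    Tendsto (fun X : ℕ => (num Holds X : ℝ) / (num Root X : ℝ)) atTop (𝓝 c) ∧
    (∀ y : ℝ, Tendsto (fun X : ℕ => (num (Upto (level y X)) X : ℝ) / (num Root X : ℝ)) atTop
      (𝓝 (c * Phi y))) ∧
    -- the same in every class given by conditions at finitely many places
    (∀ (inf : Prop) (T : Finset ℕ), (∀ p ∈ T, p.Prime) → ∀ d₀ : ℤ, Squarefree d₀ → Root d₀ →
      Tendsto (fun X : ℕ => (num (fun m => (Root m ∧ SameClass inf T d₀ m) ∧ Holds m) X : ℝ) /
        (num (fun m => Root m ∧ SameClass inf T d₀ m) X : ℝ)) atTop (𝓝 c) ∧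
      ∀ y : ℝ, Tendsto (fun X : ℕ =>
        (num (fun m => (Root m ∧ SameClass inf T d₀ m) ∧ Upto (level y X) m) X : ℝ) /
        (num (fun m => Root m ∧ SameClass inf T d₀ m) X : ℝ)) atTop (𝓝 (c * Phi y))) ∧
    0.4194 < c ∧ c < 0.4195 := by
  have hP : ∀ d : ℤ, Squarefree d → d ≠ 1 →
      (Holds d ↔ Pool.Agent.H743.X17.Sys d) := fun d hd h1 => holds_good hd h1
  have i1 : ∀ (T : ℝ) (m : ℤ), Squarefree m → m ≠ 1 → Pool.Agent.H743.X17.Sys m →
      ((Pool.Agent.H468.WM.opf m).card : ℝ) ≤ T → Upto T m := fun T m hm h1 h h' => upto_of hm h1 h h'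
  have i2 : ∀ (T : ℝ) (m : ℤ), Squarefree m → m ≠ 1 → Upto T m →
      Pool.Agent.H743.X17.Sys m ∧ ((Pool.Agent.H468.WM.opf m).card : ℝ) ≤ T + 2 :=
    fun T m hm h1 h => of_upto hm h1 h
  refine ⟨fun K _ _ hK => ?_, fun F hF => ?_, fun m hm h1 => ⟨Pool.Agent.H468.MF.quad_nf m,
    fun {_} => ⟨(Pool.Agent.H468.QF.quad_data hm h1).1, ?_, main hm h1⟩⟩,
    fun m hm h1 => holds_good hm h1,
    Pool.Agent.H468.MF.dens_all hP, Pool.Agent.H468.WM.clt_all i1 i2, Pool.Agent.H468.MF.half_all,
    Pool.Agent.H468.MF.dens_root hP, Pool.Agent.H468.WM.clt_root i1 i2,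
    fun inf T hT d₀ hd hr => ⟨Pool.Agent.H468.MF.dens_loc hP inf T hT hd hr,
      Pool.Agent.H468.WM.clt_loc i1 i2 inf T hT hd hr⟩,
    Pool.Agent.H743.X17.c2_bounds⟩
  · obtain ⟨m, hm, h1, h⟩ := Pool.Agent.H468.QF.iso_quad K hK
    refine ⟨m, ⟨hm, h1, h⟩, ?_⟩
    rintro n ⟨hn, hn1, ⟨e⟩⟩
    obtain ⟨e'⟩ := h
    exact Pool.Agent.H468.QF.quad_inj hn hn1 hm h1 ⟨e.symm.trans e'⟩
  · obtain ⟨m, hm, h1, h⟩ := Pool.Agent.H468.QF.eq_quad F hF
    refine ⟨m, ⟨hm, h1, h⟩, ?_⟩
    rintro n ⟨hn, hn1, h2⟩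
    have h3 : quadratic n = quadratic m := h2.symm.trans h
    exact Pool.Agent.H468.QF.quad_inj hn hn1 hm h1
      ⟨(IntermediateField.equivOfEq h3).toRingEquiv⟩
  · have h2 := (abs_discr hm h1).2
    rw [← Int.cast_abs] at h2
    exact_mod_cast h2

end Pool.Agent.Results.MP_e996df_nt.EveryQuadraticFieldX17
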