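import Pool.Agent.H464.Defs
import Pool.Agent.H464.VA.Tow

/-!
# The `p`-adic valuation of the leading term over abelian fields: rationality of quotients, and jumps in towers

`E` is an elliptic curve over `ℚ` of level `N`; for a number field `k` let
`x*(k) = L*(E/k) √|Δ_k| / Ω_{E/k}`, where `L*(E/k)` is the leading coefficient of `L(E/k, s)` at `s = 1`.
For a prime number `p` and `m` prime to `p` let `T_p(m)` be the number of the residue classes `± p^k`
modulo `m`.

(1) Let `F ⊆ K` be abelian number fields of conductor prime to `N` such that `L(E/F, s)` and `L(E/K, s)` have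
the same order of vanishing at `s = 1`.  Then `x*(K) / x*(F)` is a rational number, so the rationality in the
conjecture of Birch and Swinnerton-Dyer is the same question for `F` and `K`, for any order of vanishing.  If
`p` does not divide `[K : ℚ]` then the `p`-adic valuation of `x*(K) / x*(F)` is divisible by the greatest
common divisor of the numbers `T_p([C : ℚ])`, where `C` runs over the cyclic subfields of `K` that are not
contained in `F`.  (The conjecture predicts this: the `p`-primary part of `Ш(E/K)`, of the torsion group and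
of the component groups are modules over the group ring `ℤ_p[Gal(K/ℚ)]`, whose simple modules belong to the
orbits of `χ ↦ χ^p`, and `Ш` has an alternating duality that exchanges `χ` and `χ⁻¹`.)

(2) In towers of `l`-power conductor the hypothesis on the order of vanishing is proved.  There is `j₀`,
depending only on `E`, such that for all primes `l ≠ 2`, `l ∤ N`, all `j₀ ≤ j ≤ k` and all subfields
`F ⊆ K` of `ℚ(ζ_(l^k))` with `K ∩ ℚ(ζ_(l^j)) ⊆ F` the orders of vanishing are equal, and
`x*(K) = q x*(F)` with a rational number `q ≠ 0` whose `p`-adic valuation is divisible by `T_p(l^j)` for all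
primes `p` that do not divide `[K : ℚ]`, in particular by `l^(j-s)`, where `l^s` is the exact power of `l`
that divides `p^(l-1) - 1`.

For example let `𝔹_n` be the `n`-th layer of the cyclotomic `ℤ_l`-extension of `ℚ`.  Then for `n > j₀` and all
`p ≠ l` the valuation of `x*(𝔹_n) / x*(𝔹_(n-1))` at `p` is divisible by `l^(n-s)`, so if the predicted order of
`Ш(E/𝔹_n)[p^∞]` changes at all at the step `n`, then by a factor of at least `p^(l^(n-s))` (or its
inverse).

Method: `x*(K) / x*(F)` is, up to the factor `± c^([F:ℚ]-[K:ℚ])`, the product of the algebraic parts `A(χ)` of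
`L(E, χ, 1)` for the characters `χ` of `K` outside `F`; `A(χ^σ) = A(χ)^σ`, and `A(χ) / A(χ⁻¹)` is a unit by
the functional equation.  Let `𝔓` be a prime over `p` of the cyclotomic field of the values; it is unramified
and stable under `ζ ↦ ζ^p`.  So the valuation of `A(χ)` at `𝔓` is constant on the orbits of the group
generated by `χ ↦ χ^p` and `χ ↦ χ⁻¹`.
-/

set_option autoImplicit false

open NumberField NumberField.InfinitePlace IsDedekindDomain WeierstrassCurve Filter Topology

namespace Pool.Agent.Results.MP_e996df_nt.ValuationsInTowers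

open Pool.Agent.H464.Defs

/-- The number of the residue classes modulo `m` that contain a number `± p ^ k`, `k ≥ 0`. -/
noncomputable def T (p m : ℕ) : ℕ :=
  Nat.card {x : ZMod m // ∃ k : ℕ, x = (p : ZMod m) ^ k ∨ x = -(p : ZMod m) ^ k}

/-- Statement (1) for `F ⊆ K`: if `x = x*(F)` and `y = x*(K)` and the order of vanishing is `r` for both fields,
then `y = q x` with a rational number `q ≠ 0`, and if the prime number `p` does not divide `[K : ℚ]`, and `g`
divides `T_p([C : ℚ])` for all cyclic subfields `C` of `K` not contained in `F`, then `g` divides the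
`p`-adic valuation of `q`. -/
def Quotient (W : WeierstrassCurve ℤ) {M : Type} [Field M] [NumberField M]
    (F K : IntermediateField ℚ M) : Prop :=
  ∀ (r : ℕ) (x y : ℂ), HasQuotient F W r x → HasQuotient K W r y →
    ∃ q : ℚ, q ≠ 0 ∧ y = q * x ∧
      ∀ p : ℕ, p.Prime → ¬ p ∣ Module.finrank ℚ K → ∀ g : ℕ,
        (∀ C : IntermediateField ℚ M, C ≤ K → ¬ C ≤ F → IsCyclic Gal(C/ℚ) →
          g ∣ T p (Module.finrank ℚ C)) → (g : ℤ) ∣ padicValRat p q

/-- Statement (2) for `F ⊆ K`, the prime number `l` and the number `j`: the order of vanishing is the same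
number `r` for both fields, `x*(K) = q x*(F)` with a rational number `q ≠ 0`, and for all prime numbers
`p ≠ l` that do not divide `[K : ℚ]` the `p`-adic valuation of `q` is divisible by `T_p(l^j)` and by
`l^(j-s)`, where `l^s` is the exact power of `l` that divides `p^(l-1) - 1`. -/
def Step (W : WeierstrassCurve ℤ) {M : Type} [Field M] [NumberField M]
    (F K : IntermediateField ℚ M) (l j : ℕ) : Prop :=
  ∃ (r : ℕ) (x y : ℂ) (q : ℚ), HasQuotient F W r x ∧ HasQuotient K W r y ∧ q ≠ 0 ∧ y = q * x ∧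
    ∀ p : ℕ, p.Prime → p ≠ l → ¬ p ∣ Module.finrank ℚ K → (T p (l ^ j) : ℤ) ∣ padicValRat p q ∧
      ((l ^ (j - padicValNat l (p ^ (l - 1) - 1)) : ℕ) : ℤ) ∣ padicValRat p q

lemma quotient (W : WeierstrassCurve ℤ) (N : ℕ) (c : ℤ) (hW : Modular W N c)
    (n : ℕ) [NeZero n] (hn : n.Coprime N)
    (M : Type) [Field M] [NumberField M] [IsCyclotomicExtension {n} ℚ M]
    (F K : IntermediateField ℚ M) (hFK : F ≤ K) : Quotient W F K := by
  intro r x y hx hy
  have hN : NeZero N := ⟨hW.pos⟩
  obtain ⟨f, ε, Op, Om, κ, hfI, hnf, hP⟩ := hW.data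
  obtain ⟨a, ⟨LF, hLF, ha, hla⟩, rfl⟩ := hx
  obtain ⟨b, ⟨LK, hLK, hb, hlb⟩, rfl⟩ := hy
  exact Pool.Agent.H464.VA.main hW.ne hfI hnf hP n hn M F K hFK LF LK (isL.1 hLF) (isL.1 hLK) r a b
    ⟨ha, hla⟩ ⟨hb, hlb⟩

lemma step (W : WeierstrassCurve ℤ) (N : ℕ) (c : ℤ) (hW : Modular W N c) :
    ∃ j₀ : ℕ, ∀ l : ℕ, l.Prime → l ≠ 2 → ¬ l ∣ N → ∀ j k : ℕ, j₀ ≤ j → j ≤ k →
      ∀ [NeZero (l ^ k)] (M : Type) [Field M] [NumberField M] [IsCyclotomicExtension {l ^ k} ℚ M]
        (C : IntermediateField ℚ M) [IsCyclotomicExtension {l ^ j} ℚ C] (F K : IntermediateField ℚ M),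
        F ≤ K → K ⊓ C ≤ F → Step W F K l j := by
  have hN : NeZero N := ⟨hW.pos⟩
  obtain ⟨f, ε, Op, Om, κ, hfI, hnf, hP⟩ := hW.data
  obtain ⟨j₀, h⟩ := Pool.Agent.H464.SQ.tower hW.ne hfI hnf hP
  refine ⟨j₀, ?_⟩
  intro l hl hl2 hlN j k hj hjk _ M _ _ _ C _ F K hFK hC
  obtain ⟨-, LF, LK, r, a, b, hLF, hLK, ha, hb⟩ := h l hl hl2 hlN j k hj hjk M C F K hFK hC
  have hn : (l ^ k).Coprime N :=
    Nat.Coprime.pow_left _ ((Nat.Prime.coprime_iff_not_dvd hl).2 hlN)
  obtain ⟨q, hq0, h1, h2⟩ := Pool.Agent.H464.VA.main hW.ne hfI hnf hP (l ^ k) hn M F K hFK LF LK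
    hLF hLK r a b ha hb
  refine ⟨r, _, _, q, ⟨a, ⟨LF, isL.2 hLF, ha.1, ha.2⟩, rfl⟩, ⟨b, ⟨LK, isL.2 hLK, hb.1, hb.2⟩, rfl⟩,
    hq0, h1, ?_⟩
  intro p hp hpl hpK
  have h3 : ((Pool.Agent.H464.VA.orb p (l ^ j) : ℕ) : ℤ) ∣ padicValRat p q := by
    refine h2 p hp hpK _ fun Q hQK hQF _ => ?_
    have hne : NeZero (Module.finrank ℚ Q) := ⟨Module.finrank_pos.ne'⟩
    refine Pool.Agent.H464.VA.orb_dvd ?_
      (Pool.Agent.H464.VA.tower_deg hl hl2 hjk M C F K hC Q hQK hQF)
    refine (Nat.Prime.coprime_iff_not_dvd hp).2 fun hd => hpK ?_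
    exact hd.trans (Pool.Agent.H464.VA.finrank_dvd (n := l ^ k) M hQK)
  refine ⟨h3, ?_⟩
  have h4 : l ^ (j - padicValNat l (p ^ (l - 1) - 1)) ∣ Pool.Agent.H464.VA.orb p (l ^ j) :=
    Pool.Agent.H464.VA.pow_dvd_orb hp.one_lt hl hl2 (fun hd =>
      hpl ((Nat.prime_dvd_prime_iff_eq hl hp).1 hd).symm)
  exact (Int.natCast_dvd_natCast.2 h4).trans h3

/-- **Main theorem**, see the comment at the beginning of the file.  `Modular W N c`: `W` is the equation of an
elliptic curve over `ℚ` with a newform of level `N`.  (1) is the statement for all `F ⊆ K ⊆ M = ℚ(ζ_n)`, `n`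
prime to `N`; (2) is the statement for the fields `F ⊆ K ⊆ M = ℚ(ζ_(l^k))`, and `C = ℚ(ζ_(l^j)) ⊆ M`.
`X_0(11)` satisfies the hypothesis with `N = 11` and `c = 1`. -/
theorem result :
    (∀ (W : WeierstrassCurve ℤ) (N : ℕ) (c : ℤ), Modular W N c →
      ∀ (n : ℕ) [NeZero n], n.Coprime N →
      ∀ (M : Type) [Field M] [NumberField M] [IsCyclotomicExtension {n} ℚ M]
        (F K : IntermediateField ℚ M), F ≤ K → Quotient W F K) ∧
    (∀ (W : WeierstrassCurve ℤ) (N : ℕ) (c : ℤ), Modular W N c →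
      ∃ j₀ : ℕ, ∀ l : ℕ, l.Prime → l ≠ 2 → ¬ l ∣ N → ∀ j k : ℕ, j₀ ≤ j → j ≤ k →
      ∀ [NeZero (l ^ k)] (M : Type) [Field M] [NumberField M] [IsCyclotomicExtension {l ^ k} ℚ M]
        (C : IntermediateField ℚ M) [IsCyclotomicExtension {l ^ j} ℚ C] (F K : IntermediateField ℚ M),
        F ≤ K → K ⊓ C ≤ F → Step W F K l j) ∧
    Modular X11 11 1 :=
  ⟨fun W N c hW n _ hn M _ _ _ F K hFK => quotient W N c hW n hn M F K hFK, step, modular11⟩

end Pool.Agent.Results.MP_e996df_nt.ValuationsInTowers
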